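import Pool.Agent.Y228.RR.Mot
import Pool.Agent.TH187.SA.Classes

set_option autoImplicit false
set_option linter.unusedSectionVars false
set_option linter.unusedVariables false

/-! # The formula of Denef and Loeser: only the components which occur matter -/

namespace Pool.Agent.Q282.DL

open Pool.Agent.TH192.DT Pool.Agent.TH187.SA Pool.Agent.Y231.RF Pool.Agent.Y228.RR
  Pool.Agent.W574.HS Pool.Agent.H628R4.TP Pool.Agent.W574.LM Pool.Agent.W574.SM

section mem

variable {R : Type} [CommRing R] {ι : Type} [Fintype ι]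

/-- The component `i` occurs in the formula with the coefficients `c`: it belongs to a set `J` of
components with `c J ≠ 0`. -/
def Occ {N : ι → ℕ} (c : Finset {i // 0 < N i} → R) (i : {i // 0 < N i}) : Prop :=
  ∃ J, c J ≠ 0 ∧ i ∈ J

open Classical in
/-- the pairs of the components which occur -/
noncomputable def occPairs (ν N : ι → ℕ) (c : Finset {i // 0 < N i} → R) : Finset (ℤ × ℤ) :=
  (Finset.univ.filter fun i : {i // 0 < N i} => Occ c i).image
    fun i => (-(ν i.1 : ℤ), (N i.1 : ℤ))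

theorem mem_occPairs {ν N : ι → ℕ} {c : Finset {i // 0 < N i} → R} {q : ℤ × ℤ}
    (hq : q ∈ occPairs ν N c) : ∃ i : {i // 0 < N i}, Occ c i ∧
      q = (-(ν i.1 : ℤ), (N i.1 : ℤ)) := by
  classical
  unfold occPairs at hq
  obtain ⟨i, hi, rfl⟩ := Finset.mem_image.1 hq
  exact ⟨i, (Finset.mem_filter.1 hi).2, rfl⟩

theorem dlZ_mem_occ (u : Rˣ) (ν N : ι → ℕ) (c : Finset {i // 0 < N i} → R) :
    dlZ u ν N c ∈ ratU u (occPairs ν N c : Set (ℤ × ℤ)) := by
  classical
  refine Subalgebra.sum_mem _ fun I _ => ?_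
  by_cases hc : c I = 0
  · rw [hc, map_zero, zero_mul]
    exact Subalgebra.zero_mem _
  refine Subalgebra.mul_mem _ (Subalgebra.algebraMap_mem _ (c I))
    (Subalgebra.prod_mem _ fun i hi => Subalgebra.mul_mem _ (Subalgebra.mul_mem _
      (Subalgebra.algebraMap_mem _ _) (Subalgebra.pow_mem _ ?_ _)) ?_)
  · exact Algebra.subset_adjoin (Or.inl rfl)
  · refine Algebra.subset_adjoin (Or.inr ⟨(-(ν i.1 : ℤ), (N i.1 : ℤ)), ?_, rfl⟩)
    refine Finset.mem_coe.2 (Finset.mem_image.2 ⟨i, ?_, rfl⟩)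
    exact Finset.mem_filter.2 ⟨Finset.mem_univ _, I, hc, hi⟩

end mem

section rees

variable {σ T I : Type} [Fintype σ] [DecidableEq σ] [Fintype T] [DecidableEq T] [Fintype I]
  {κ : T → Type} [∀ t, Fintype (κ t)] [∀ t, DecidableEq (κ t)]

/-- **Products of powers of forms over ideals, global.** -/
theorem rees_glob (g : (t : T) → κ t → MvPolynomial σ ℂ) (hg : ∀ t, ∃ j, g t j ≠ 0) (a : T → ℕ)
    (k : I → ℕ) (m : I → T → ℕ) {R : Type} [CommRing R] (u : Rˣ)
    (c : Finset {x // 0 < mulR a m x} → R)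
    (hE : ∀ (i : I) (hi : 0 < ∑ t, a t * m i t), Occ c ⟨Sum.inl i, hi⟩ →
      FromRees g a 1 (k i + 1) (∑ t, a t * m i t)) :
    ∃ P : Finset (ℤ × ℤ), (∀ q ∈ P, q.1 < 0 ∧ 0 < q.2 ∧
      ∀ b : Polynomial ℂ, IsBFunction (powProd a g) b → b.eval ((q.1 : ℂ) / q.2) = 0) ∧
      dlZ u (nuR k T) (mulR a m) c ∈ ratU u (P : Set (ℤ × ℤ)) := by
  refine ⟨occPairs (nuR k T) (mulR a m) c, fun q hq => ?_, dlZ_mem_occ _ _ _ _⟩
  obtain ⟨⟨x, hx⟩, hocc, rfl⟩ := mem_occPairs hq
  refine ⟨?_, Int.natCast_pos.2 hx, fun b hb => ?_⟩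
  · have h := nuR_pos (T := T) k x
    show -((nuR k T x : ℕ) : ℤ) < 0
    omega
  · rcases x with i | t
    · have hi : 0 < ∑ t, a t * m i t := hx
      have ha : ∃ t, a t ≠ 0 := by
        obtain ⟨t, _, ht⟩ := Finset.exists_ne_zero_of_sum_ne_zero hi.ne'
        exact ⟨t, left_ne_zero_of_mul ht⟩
      obtain ⟨H, hH, hHb⟩ := locEq_global a g b hb ha
      have h := root_of_from a g b H hHb _ _ hi ((hE i hi hocc).congr hH)
      simp only [nuR, mulR, Sum.elim_inl]
      push_cast at h ⊢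
      exact h
    · have ht : 0 < a t := hx
      have h := (powData_global a g hg b hb).strict t 0 ht
      rw [Nat.cast_zero, add_zero] at h
      simp only [nuR, mulR, Sum.elim_inr]
      push_cast
      exact h

/-- **Products of powers of forms over ideals, local at the origin.** -/
theorem rees_loc (g : (t : T) → κ t → MvPolynomial σ ℂ) (hg : ∀ t, ∃ j, g t j ≠ 0) (a : T → ℕ)
    (k : I → ℕ) (m : I → T → ℕ) {R : Type} [CommRing R] (u : Rˣ)
    (c : Finset {x // 0 < mulR a m x} → R)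
    (hE : ∀ (i : I) (hi : 0 < ∑ t, a t * m i t), Occ c ⟨Sum.inl i, hi⟩ →
      ∀ H : MvPolynomial σ ℂ, MvPolynomial.constantCoeff H ≠ 0 →
        FromRees g a H (k i + 1) (∑ t, a t * m i t)) :
    ∃ P : Finset (ℤ × ℤ), (∀ q ∈ P, q.1 < 0 ∧ 0 < q.2 ∧
      ∀ b : Polynomial ℂ, IsLocalBFunction (powProd a g) b → b.eval ((q.1 : ℂ) / q.2) = 0) ∧
      dlZ u (nuR k T) (mulR a m) c ∈ ratU u (P : Set (ℤ × ℤ)) := by
  refine ⟨occPairs (nuR k T) (mulR a m) c, fun q hq => ?_, dlZ_mem_occ _ _ _ _⟩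
  obtain ⟨⟨x, hx⟩, hocc, rfl⟩ := mem_occPairs hq
  refine ⟨?_, Int.natCast_pos.2 hx, fun b hb => ?_⟩
  · have h := nuR_pos (T := T) k x
    show -((nuR k T x : ℕ) : ℤ) < 0
    omega
  · rcases x with i | t
    · have hi : 0 < ∑ t, a t * m i t := hx
      have ha : ∃ t, a t ≠ 0 := by
        obtain ⟨t, _, ht⟩ := Finset.exists_ne_zero_of_sum_ne_zero hi.ne'
        exact ⟨t, left_ne_zero_of_mul ht⟩
      obtain ⟨H, hH, hHb⟩ := (powData_local a g hg b hb).ideal ha
      have h := root_of_from a g b H hHb _ _ hi (hE i hi hocc H hH)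
      simp only [nuR, mulR, Sum.elim_inl]
      push_cast at h ⊢
      exact h
    · have ht : 0 < a t := hx
      have h := (powData_local a g hg b hb).strict t 0 ht
      rw [Nat.cast_zero, add_zero] at h
      simp only [nuR, mulR, Sum.elim_inr]
      push_cast
      exact h

end rees

section arr

variable {σ S T I : Type} [Fintype σ] [DecidableEq σ] [Fintype S] [DecidableEq S] [Fintype T]
  [DecidableEq T] [Fintype I] {κ : S → Type} [∀ s, Fintype (κ s)] [∀ s, DecidableEq (κ s)]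

/-- **Products of powers of forms over products of linear ideals.** -/
theorem arr_main (c : (s : S) → κ s → σ → ℂ) (hc : ∀ s, ∃ j, c s j ≠ 0) (e : T → S → ℕ)
    (a : T → ℕ) (G : I → Submodule ℂ (σ → ℂ)) {R : Type} [CommRing R] (u : Rˣ)
    (χ : Finset {x // 0 < mulA (fun s => zeros (c s)) e a G x} → R)
    (hG : ∀ (i : I) (hi : 0 < mulA (fun s => zeros (c s)) e a G (Sum.inl i)),
      Occ χ ⟨Sum.inl i, hi⟩ → IsReesFlat (fun s => zeros (c s)) (Occurs e a) (G i)) :
    ∃ P : Finset (ℤ × ℤ), (∀ q ∈ P, q.1 < 0 ∧ 0 < q.2 ∧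
      (∀ b : Polynomial ℂ, IsBFunction (powProd a fun t => arrGen c (e t)) b →
        b.eval ((q.1 : ℂ) / q.2) = 0) ∧
      ∀ b : Polynomial ℂ, IsLocalBFunction (powProd a fun t => arrGen c (e t)) b →
        b.eval ((q.1 : ℂ) / q.2) = 0) ∧
      dlZ u (nuA G T) (mulA (fun s => zeros (c s)) e a G) χ ∈ ratU u (P : Set (ℤ × ℤ)) := by
  refine ⟨occPairs _ _ χ, fun q hq => ?_, dlZ_mem_occ _ _ _ _⟩
  obtain ⟨⟨x, hx⟩, hocc, rfl⟩ := mem_occPairs hq
  have key : 0 < nuA G T x ∧ ∀ b : Polynomial ℂ, PowData a (fun t => arrGen c (e t)) b →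
      b.eval (-((nuA G T x : ℂ)) / mulA (fun s => zeros (c s)) e a G x) = 0 := by
    rcases x with i | t
    · have hR := hG i hx hocc
      refine ⟨codim_pos hR, fun b hb => ?_⟩
      have h := pow_arr (I := Unit) c e a (fun _ => G i) (fun _ => hR) b hb (Sum.inl ()) 0 hx
      rw [Nat.cast_zero, add_zero] at h
      exact h
    · refine ⟨one_pos, fun b hb => ?_⟩
      have ht : 0 < a t := hx
      have h := hb.strict t 0 ht
      rw [Nat.cast_zero, add_zero] at h
      simp only [nuA, mulA, Sum.elim_inr]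
      push_cast
      exact h
  refine ⟨?_, Int.natCast_pos.2 hx, fun b hb => ?_, fun b hb => ?_⟩
  · have h := key.1
    show -((nuA G T x : ℕ) : ℤ) < 0
    omega
  · have h := key.2 b (powData_global a _ (fun t => arrGen_ne c hc (e t)) b hb)
    push_cast at h ⊢
    exact h
  · have h := key.2 b (powData_local a _ (fun t => arrGen_ne c hc (e t)) b hb)
    push_cast at h ⊢
    exact h

end arr

section ideals

variable {σ T I : Type} [Fintype σ] [DecidableEq σ] [Fintype T] [DecidableEq T] [Fintype I]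
  {κ : T → Type} [∀ t, Fintype (κ t)] [∀ t, DecidableEq (κ t)]

/-- **Products of powers of ideals, local at the origin.** -/
theorem ideal_loc (g : (t : T) → κ t → MvPolynomial σ ℂ) (a : T → ℕ)
    (k : I → ℕ) (m : I → T → ℕ) {R : Type} [CommRing R] (u : Rˣ)
    (c : Finset {i // 0 < ∑ t, a t * m i t} → R)
    (hE : ∀ (i : I) (hi : 0 < ∑ t, a t * m i t), Occ (N := fun i => ∑ t, a t * m i t) c ⟨i, hi⟩ →
      ∀ H : MvPolynomial σ ℂ, MvPolynomial.constantCoeff H ≠ 0 →
        FromRees g a H (k i + 1) (∑ t, a t * m i t)) :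
    ∃ P : Finset (ℤ × ℤ), (∀ q ∈ P, q.1 < 0 ∧ 0 < q.2 ∧
      ∀ (b : Polynomial ℂ) (H : MvPolynomial σ ℂ), MvPolynomial.constantCoeff H ≠ 0 →
        IsLocEq H (prodFam fun q : Σ t, Fin (a t) => g q.1) b → b.eval ((q.1 : ℂ) / q.2) = 0) ∧
      dlZ u (fun i => k i + 1) (fun i => ∑ t, a t * m i t) c ∈ ratU u (P : Set (ℤ × ℤ)) := by
  refine ⟨occPairs _ _ c, fun q hq => ?_, dlZ_mem_occ _ _ _ _⟩
  obtain ⟨⟨i, hi⟩, hocc, rfl⟩ := mem_occPairs hq
  refine ⟨?_, Int.natCast_pos.2 hi, fun b H hH hb => ?_⟩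
  · show -((k i + 1 : ℕ) : ℤ) < 0
    omega
  · have h := root_of_from a g b H hb _ _ hi (hE i hi hocc H hH)
    push_cast at h ⊢
    exact h

end ideals

end Pool.Agent.Q282.DL
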