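import Pool.Agent.Q282.DL.Weak

set_option autoImplicit false
set_option linter.unusedSectionVars false
set_option linter.unusedVariables false

/-! # Weak forms for topological zeta functions -/

namespace Pool.Agent.Q282.DL

open Pool.Agent.TH192.DT Pool.Agent.TH187.SA Pool.Agent.Y231.RF Pool.Agent.Y228.RR
  Pool.Agent.W574.HS Pool.Agent.H628R4.TP Pool.Agent.W574.LM Pool.Agent.W574.SM

section rees

variable {σ T I : Type} [Fintype σ] [DecidableEq σ] [Fintype T] [DecidableEq T] [Fintype I]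
  {κ : T → Type} [∀ t, Fintype (κ t)] [∀ t, DecidableEq (κ t)]

theorem strict_zero {g : (t : T) → κ t → MvPolynomial σ ℂ} {a : T → ℕ} {b : Polynomial ℂ}
    (hb : PowData a g b) {t : T} (ht : 0 < a t) : RootModZ b (-((1 : ℕ) : ℂ) / a t) := by
  refine ⟨0, ?_⟩
  have h := hb.strict t 0 ht
  rw [Nat.cast_zero, add_zero] at h
  push_cast
  rw [sub_zero]
  exact h

/-- **Rees divisors modulo `ℤ`, topological zeta function, global.** -/
theorem rees_top_glob (g : (t : T) → κ t → MvPolynomial σ ℂ) (hg : ∀ t, ∃ j, g t j ≠ 0)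
    (a : T → ℕ) (k : I → ℕ) (m : I → T → ℕ) (χ : Finset (I ⊕ T) → ℤ)
    (hE : ∀ i, 0 < ∑ t, a t * m i t → (∃ J, χ J ≠ 0 ∧ Sum.inl i ∈ J) →
      FromReesMod g a 1 (k i + 1) (∑ t, a t * m i t))
    (s₀ : ℂ) (hs : (topZ (nuR k T) (mulR a m) χ).denom.eval s₀ = 0)
    (b : Polynomial ℂ) (hb : IsBFunction (powProd a g) b) : RootModZ b s₀ := by
  obtain ⟨J, hJ, x, hx, hN, rfl⟩ := pole_topZ' _ _ χ (nuR_pos k) s₀ hs
  have hd := powData_global a g hg b hb
  rcases x with i | t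
  · have hi : 0 < ∑ t, a t * m i t := hN
    have ha : ∃ t, a t ≠ 0 := by
      obtain ⟨t, _, ht⟩ := Finset.exists_ne_zero_of_sum_ne_zero hi.ne'
      exact ⟨t, left_ne_zero_of_mul ht⟩
    show RootModZ b (-((k i + 1 : ℕ) : ℂ) / (∑ t, a t * m i t : ℕ))
    rcases hE i hi ⟨J, hJ, hx⟩ with ⟨ν', N', j, hN', hF, he⟩ | ⟨t, l, j, hl, he⟩
    · obtain ⟨H, hH, hHb⟩ := locEq_global a g b hb ha
      exact modZ_of_eq b hi hN' j he (root_of_from a g b H hHb _ _ hN' (hF.congr hH))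
    · refine modZ_of_eq b hi (N' := a t) (ν' := 1 + l) (by omega) j
        (by push_cast at he ⊢; exact he) ?_
      have h := hd.strict t l hl
      push_cast
      exact h
  · exact strict_zero hd hN

/-- **Rees divisors modulo `ℤ`, topological zeta function, local.** -/
theorem rees_top_loc (g : (t : T) → κ t → MvPolynomial σ ℂ) (hg : ∀ t, ∃ j, g t j ≠ 0)
    (a : T → ℕ) (k : I → ℕ) (m : I → T → ℕ) (χ : Finset (I ⊕ T) → ℤ)
    (hE : ∀ i, 0 < ∑ t, a t * m i t → (∃ J, χ J ≠ 0 ∧ Sum.inl i ∈ J) →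
      ∀ H : MvPolynomial σ ℂ, MvPolynomial.constantCoeff H ≠ 0 →
        FromReesMod g a H (k i + 1) (∑ t, a t * m i t))
    (s₀ : ℂ) (hs : (topZ (nuR k T) (mulR a m) χ).denom.eval s₀ = 0)
    (b : Polynomial ℂ) (hb : IsLocalBFunction (powProd a g) b) : RootModZ b s₀ := by
  obtain ⟨J, hJ, x, hx, hN, rfl⟩ := pole_topZ' _ _ χ (nuR_pos k) s₀ hs
  have hd := powData_local a g hg b hb
  rcases x with i | t
  · have hi : 0 < ∑ t, a t * m i t := hN
    have ha : ∃ t, a t ≠ 0 := by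
      obtain ⟨t, _, ht⟩ := Finset.exists_ne_zero_of_sum_ne_zero hi.ne'
      exact ⟨t, left_ne_zero_of_mul ht⟩
    show RootModZ b (-((k i + 1 : ℕ) : ℂ) / (∑ t, a t * m i t : ℕ))
    obtain ⟨H, hH, hHb⟩ := hd.ideal ha
    rcases hE i hi ⟨J, hJ, hx⟩ H hH with ⟨ν', N', j, hN', hF, he⟩ | ⟨t, l, j, hl, he⟩
    · exact modZ_of_eq b hi hN' j he (root_of_from a g b H hHb _ _ hN' hF)
    · refine modZ_of_eq b hi (N' := a t) (ν' := 1 + l) (by omega) j
        (by push_cast at he ⊢; exact he) ?_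
      have h := hd.strict t l hl
      push_cast
      exact h
  · exact strict_zero hd hN

end rees

section arr

variable {σ S T I : Type} [Fintype σ] [DecidableEq σ] [Fintype S] [DecidableEq S] [Fintype T]
  [DecidableEq T] [Fintype I] {κ : S → Type} [∀ s, Fintype (κ s)] [∀ s, DecidableEq (κ s)]

/-- the numbers of a component whose multiplicity divides the one of a Rees flat -/
theorem root_of_dvd (c : (s : S) → κ s → σ → ℂ) (e : T → S → ℕ) (a : T → ℕ) (ν n : ℕ)
    (hn : 0 < n) (hd : DvdMult c e a n) (b : Polynomial ℂ)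
    (hb : PowData a (fun t => arrGen c (e t)) b) : RootModZ b (-(ν : ℂ) / n) := by
  rcases hd with ⟨G', hR, hpos, hdvd⟩ | ⟨t, ht, hdvd⟩
  · obtain ⟨l, j, hl, he⟩ := exists_res (ν := ν)
      (p := Fintype.card σ - Module.finrank ℂ G') hn hpos hdvd
    refine modZ_of_eq b hn hpos j he ?_
    have h := pow_arr (I := Unit) c e a (fun _ => G') (fun _ => hR) b hb (Sum.inl ()) l hl
    rw [Nat.cast_add]
    exact h
  · obtain ⟨l, j, hl, he⟩ := exists_res (ν := ν) (p := 1) hn ht hdvd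
    refine modZ_of_eq b hn ht j he ?_
    have h := hb.strict t l hl
    rw [Nat.cast_add, Nat.cast_one]
    exact h

theorem codim_of_ne {G : Submodule ℂ (σ → ℂ)} (h : G ≠ ⊤) :
    0 < Fintype.card σ - Module.finrank ℂ G := by
  have h2 := Submodule.finrank_lt h
  rw [Module.finrank_fintype_fun_eq_card] at h2
  omega

/-- **Subspace arrangements, topological zeta function: the divisibility criterion.** -/
theorem arr_top (c : (s : S) → κ s → σ → ℂ) (e : T → S → ℕ) (a : T → ℕ)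
    (G : I → Submodule ℂ (σ → ℂ)) (hG0 : ∀ i, G i ≠ ⊤) (χ : Finset (I ⊕ T) → ℤ)
    (hG : ∀ i, 0 < ∑ t, a t * mult (fun s => zeros (c s)) (e t) (G i) →
      (∃ J, χ J ≠ 0 ∧ Sum.inl i ∈ J) →
        DvdMult c e a (∑ t, a t * mult (fun s => zeros (c s)) (e t) (G i)))
    (s₀ : ℂ) (hs : (topZ (nuA G T) (mulA (fun s => zeros (c s)) e a G) χ).denom.eval s₀ = 0)
    (b : Polynomial ℂ) (hb : PowData a (fun t => arrGen c (e t)) b) : RootModZ b s₀ := by
  have hν : ∀ x, 0 < nuA G T x := by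
    rintro (i | t)
    · exact codim_of_ne (hG0 i)
    · exact one_pos
  obtain ⟨J, hJ, x, hx, hN, rfl⟩ := pole_topZ' _ _ χ hν s₀ hs
  rcases x with i | t
  · have hi : 0 < ∑ t, a t * mult (fun s => zeros (c s)) (e t) (G i) := hN
    exact root_of_dvd c e a _ _ hi (hG i hi ⟨J, hJ, hx⟩) b hb
  · exact strict_zero hb hN

end arr

end Pool.Agent.Q282.DL
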