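import Pool.Agent.Q282.DL.TopW
import Pool.Agent.Y231.RF.Tup

set_option autoImplicit false
set_option linter.unusedSectionVars false
set_option linter.unusedVariables false

/-! # Weak forms for topological zeta functions in several variables -/

namespace Pool.Agent.Q282.DL

open Pool.Agent.TH192.DT Pool.Agent.TH187.SA Pool.Agent.Y231.RF Pool.Agent.Y228.RR
  Pool.Agent.W574.HS Pool.Agent.H628R4.TP Pool.Agent.W574.LM Pool.Agent.W574.SM

/-- The polar locus comes from the components which occur. -/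
theorem polar_occ {I T : Type} [Fintype I] [Fintype T] (ν : I → ℕ) (hν : ∀ i, 0 < ν i)
    (N : I → T → ℕ) (χ : Finset I → ℤ) (z : T → ℂ) (hz : z ∈ PolarLocus (topM ν N χ)) :
    ∃ J, χ J ≠ 0 ∧ ∃ i ∈ J, ∑ t, (N i t : ℂ) * z t + ν i = 0 := by
  classical
  set K := FractionRing (MvPolynomial T ℂ)
  set φ := algebraMap (MvPolynomial T ℂ) K
  have hne : ∀ i, φ (linF (ν i) (N i)) ≠ 0 := fun i h =>
    linF_ne (ν i) (hν i) (N i) (IsFractionRing.injective (MvPolynomial T ℂ) K (by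
      rw [map_zero]; exact h))
  set U : Finset I := Finset.univ.filter fun i => ∃ J, χ J ≠ 0 ∧ i ∈ J with hU
  have h1 := hz (∑ J : Finset I, MvPolynomial.C ((χ J : ℤ) : ℂ) *
    ∏ i ∈ U \ J, linF (ν i) (N i)) (∏ i ∈ U, linF (ν i) (N i)) ?_
  · rw [map_prod] at h1
    obtain ⟨i, hi, hi0⟩ := Finset.prod_eq_zero_iff.1 h1
    obtain ⟨J, hJ, hiJ⟩ := (Finset.mem_filter.1 hi).2
    rw [eval_linF] at hi0
    exact ⟨J, hJ, i, hiJ, hi0⟩
  · rw [topM, Finset.sum_mul, map_sum]
    refine Finset.sum_congr rfl fun J _ => ?_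
    have h2 : φ (MvPolynomial.C ((χ J : ℤ) : ℂ)) = (χ J : K) := by
      rw [show (MvPolynomial.C ((χ J : ℤ) : ℂ) : MvPolynomial T ℂ) =
        ((χ J : ℤ) : MvPolynomial T ℂ) by rw [map_intCast], map_intCast]
    rw [map_mul, h2, mul_assoc]
    by_cases hJ : χ J = 0
    · rw [hJ, Int.cast_zero, zero_mul, zero_mul]
    congr 1
    have hsub : J ⊆ U := fun i hi => Finset.mem_filter.2 ⟨Finset.mem_univ i, J, hJ, hi⟩
    rw [← Finset.prod_sdiff hsub, map_mul, map_prod, map_prod, mul_comm, mul_assoc,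
      ← Finset.prod_mul_distrib, Finset.prod_congr rfl (fun i _ => mul_inv_cancel₀ (hne i)),
      Finset.prod_const_one, mul_one]

section rees

variable {σ T I : Type} [Fintype σ] [DecidableEq σ] [Fintype T] [DecidableEq T] [Fintype I]
  {κ : T → Type} [∀ t, Fintype (κ t)] [∀ t, DecidableEq (κ t)]

/-- for a Rees divisor the numbers of all the powers come from Rees divisors -/
theorem fromReesMod_self {g : (t : T) → κ t → MvPolynomial σ ℂ} (E : Chart g)
    (hE : E.IsRees fun _ => True) (hpos : 0 < ∑ t, E.m t) (n : T → ℕ) (hn : ∀ t, 0 < n t) :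
    FromReesMod g n 1 (E.k + 1) (∑ t, n t * E.m t) := by
  have hpos' : 0 < ∑ t, n t * E.m t := by
    obtain ⟨t, _, ht⟩ := Finset.exists_ne_zero_of_sum_ne_zero hpos.ne'
    exact lt_of_lt_of_le (Nat.mul_pos (hn t) (Nat.pos_of_ne_zero ht))
      (Finset.single_le_sum (f := fun t => n t * E.m t) (fun _ _ => Nat.zero_le _)
        (Finset.mem_univ t))
  refine FromReesMod.of_fromRees hpos' (fromRees_self E (hE.mono fun t _ => (hn t).ne') ?_ hpos')
  rw [map_one, map_one]
  exact one_ne_zero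

/-- **Tuples of forms over ideals, weak form.** -/
theorem rees_tup (g : (t : T) → κ t → MvPolynomial σ ℂ)
    (hg : ∀ t, ∃ j, g t j ≠ 0) (k : I → ℕ) (m : I → T → ℕ) (χ : Finset (I ⊕ T) → ℤ)
    (hE : ∀ i, 0 < ∑ t, m i t → (∃ J, χ J ≠ 0 ∧ Sum.inl i ∈ J) →
      ∀ n : T → ℕ, (∀ t, 0 < n t) → FromReesMod g n 1 (k i + 1) (∑ t, n t * m i t))
    (z : T → ℂ) (hz : z ∈ PolarLocus (topM (nuR k T) (mulT m) χ)) :
    ∃ x, (∃ J, χ J ≠ 0 ∧ x ∈ J) ∧ ∑ t, (mulT m x t : ℂ) * z t + (nuR k T x : ℂ) = 0 ∧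
      ∀ n : T → ℕ, (∀ t, 0 < n t) → ∀ b : Polynomial ℂ, IsBFunction (powProd n g) b →
        RootModZ b (-(nuR k T x : ℂ) / ∑ t, (n t : ℂ) * (mulT m x t : ℂ)) := by
  obtain ⟨J, hJ, x, hxJ, hx⟩ := polar_occ _ (nuR_pos k) _ χ z hz
  refine ⟨x, ⟨J, hJ, hxJ⟩, hx, fun n hn b hb => ?_⟩
  have hd := powData_global n g hg b hb
  rcases x with i | t
  · have hpos : 0 < ∑ t, m i t := by
      rcases Nat.eq_zero_or_pos (∑ t, m i t) with h0 | h0
      · exfalso
        have h1 : ∀ t, m i t = 0 := fun t => (Finset.sum_eq_zero_iff.1 h0) t (Finset.mem_univ t)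
        have h2 : ∑ t, (mulT m (Sum.inl i) t : ℂ) * z t = 0 :=
          Finset.sum_eq_zero fun t _ => by
            change ((m i t : ℕ) : ℂ) * z t = 0
            rw [h1 t, Nat.cast_zero, zero_mul]
        rw [h2, zero_add] at hx
        have h3 := nuR_pos (T := T) k (Sum.inl i)
        exact h3.ne' (Nat.cast_eq_zero.1 hx)
      · exact h0
    have hpos' : 0 < ∑ t, n t * m i t := by
      obtain ⟨t, _, ht⟩ := Finset.exists_ne_zero_of_sum_ne_zero hpos.ne'
      exact lt_of_lt_of_le (Nat.mul_pos (hn t) (Nat.pos_of_ne_zero ht))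
        (Finset.single_le_sum (f := fun t => n t * m i t) (fun _ _ => Nat.zero_le _)
          (Finset.mem_univ t))
    have ha : ∃ t, n t ≠ 0 := by
      obtain ⟨t, _, ht⟩ := Finset.exists_ne_zero_of_sum_ne_zero hpos.ne'
      exact ⟨t, (hn t).ne'⟩
    have key : RootModZ b (-((k i + 1 : ℕ) : ℂ) / (∑ t, n t * m i t : ℕ)) := by
      rcases hE i hpos ⟨J, hJ, hxJ⟩ n hn with ⟨ν', N', j, hN', hF, he⟩ | ⟨t, l, j, hl, he⟩
      · obtain ⟨H, hH, hHb⟩ := locEq_global n g b hb ha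
        exact modZ_of_eq b hpos' hN' j he (root_of_from n g b H hHb _ _ hN' (hF.congr hH))
      · refine modZ_of_eq b hpos' (N' := n t) (ν' := 1 + l) (by omega) j
          (by push_cast at he ⊢; exact he) ?_
        have h := hd.strict t l hl
        push_cast
        exact h
    have e1 : ((∑ t, n t * m i t : ℕ) : ℂ) = ∑ t, (n t : ℂ) * (mulT m (Sum.inl i) t : ℂ) := by
      push_cast
      rfl
    rw [e1] at key
    exact key
  · have h1 : ∑ t', (n t' : ℂ) * (mulT m (Sum.inr t) t' : ℂ) = n t := by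
      rw [Finset.sum_eq_single t]
      · change (n t : ℂ) * ((Pi.single t 1 : T → ℕ) t : ℂ) = n t
        rw [Pi.single_eq_same, Nat.cast_one, mul_one]
      · intro t' _ ht'
        change (n t' : ℂ) * ((Pi.single t 1 : T → ℕ) t' : ℂ) = 0
        rw [Pi.single_eq_of_ne ht', Nat.cast_zero, mul_zero]
      · intro h; exact absurd (Finset.mem_univ _) h
    rw [h1]
    exact strict_zero hd (hn t)

end rees

section arr

variable {σ S T I : Type} [Fintype σ] [DecidableEq σ] [Fintype S] [DecidableEq S] [Fintype T]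
  [DecidableEq T] [Fintype I] {κ : S → Type} [∀ s, Fintype (κ s)] [∀ s, DecidableEq (κ s)]

/-- The vector `v` of multiplicities divides the vector of multiplicities of a Rees flat `G'`
(`mult (e t) G' = d * v t` for all `t`), or it is a unit vector. -/
def DvdMultT (c : (s : S) → κ s → σ → ℂ) (e : T → S → ℕ) (v : T → ℕ) : Prop :=
  (∃ (G' : Submodule ℂ (σ → ℂ)) (d : ℕ),
    IsReesFlat (fun s => zeros (c s)) (fun s => ∃ t, e t s ≠ 0) G' ∧ 0 < d ∧
    ∀ t, mult (fun s => zeros (c s)) (e t) G' = d * v t) ∨ ∃ t, v = Pi.single t 1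

theorem dvd_of_T (c : (s : S) → κ s → σ → ℂ) (e : T → S → ℕ) (v : T → ℕ) (h : DvdMultT c e v)
    (n : T → ℕ) (hn : ∀ t, 0 < n t) (hv : 0 < ∑ t, n t * v t) :
    DvdMult c e n (∑ t, n t * v t) := by
  rcases h with ⟨G', d, hR, hd, hm⟩ | ⟨t, rfl⟩
  · have h1 : Occurs e n = fun s => ∃ t, e t s ≠ 0 := by
      funext s
      apply propext
      exact ⟨fun ⟨t, _, h⟩ => ⟨t, h⟩, fun ⟨t, h⟩ => ⟨t, (hn t).ne', h⟩⟩
    have h2 : ∑ t, n t * mult (fun s => zeros (c s)) (e t) G' = (∑ t, n t * v t) * d := by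
      rw [Finset.sum_mul]
      refine Finset.sum_congr rfl fun t _ => ?_
      rw [hm t]
      ring
    refine Or.inl ⟨G', by rw [h1]; exact hR, ?_, ?_⟩
    · rw [h2]
      exact Nat.mul_pos hv hd
    · rw [h2]
      exact Dvd.intro _ rfl
  · refine Or.inr ⟨t, hn t, ?_⟩
    rw [Finset.sum_eq_single t]
    · rw [Pi.single_eq_same, mul_one]
    · intro t' _ ht'
      rw [Pi.single_eq_of_ne ht', mul_zero]
    · intro h; exact absurd (Finset.mem_univ _) h

/-- **Tuples of forms over subspace arrangements: the divisibility criterion.** -/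
theorem arr_tup (c : (s : S) → κ s → σ → ℂ) (hc : ∀ s, ∃ j, c s j ≠ 0) (e : T → S → ℕ)
    (G : I → Submodule ℂ (σ → ℂ)) (hG0 : ∀ i, G i ≠ ⊤) (χ : Finset (I ⊕ T) → ℤ)
    (hG : ∀ i, 0 < ∑ t, mult (fun s => zeros (c s)) (e t) (G i) →
      (∃ J, χ J ≠ 0 ∧ Sum.inl i ∈ J) →
        DvdMultT c e fun t => mult (fun s => zeros (c s)) (e t) (G i))
    (z : T → ℂ) (hz : z ∈ PolarLocus (topM (nuA G T) (mulS (fun s => zeros (c s)) e G) χ)) :
    ∃ x, (∃ J, χ J ≠ 0 ∧ x ∈ J) ∧
      ∑ t, (mulS (fun s => zeros (c s)) e G x t : ℂ) * z t + (nuA G T x : ℂ) = 0 ∧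
      ∀ n : T → ℕ, (∀ t, 0 < n t) → ∀ b : Polynomial ℂ,
        IsBFunction (powProd n fun t => arrGen c (e t)) b →
        RootModZ b
          (-(nuA G T x : ℂ) / ∑ t, (n t : ℂ) * (mulS (fun s => zeros (c s)) e G x t : ℂ)) := by
  have hν : ∀ x, 0 < nuA G T x := by
    rintro (i | t)
    · exact codim_of_ne (hG0 i)
    · exact one_pos
  obtain ⟨J, hJ, x, hxJ, hx⟩ := polar_occ _ hν _ χ z hz
  refine ⟨x, ⟨J, hJ, hxJ⟩, hx, fun n hn b hb => ?_⟩
  have hd := powData_global n (fun t => arrGen c (e t)) (fun t => arrGen_ne c hc (e t)) b hb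
  rcases x with i | t
  · have hpos : 0 < ∑ t, mult (fun s => zeros (c s)) (e t) (G i) := by
      rcases Nat.eq_zero_or_pos (∑ t, mult (fun s => zeros (c s)) (e t) (G i)) with h0 | h0
      · exfalso
        have h1 : ∀ t, mult (fun s => zeros (c s)) (e t) (G i) = 0 :=
          fun t => (Finset.sum_eq_zero_iff.1 h0) t (Finset.mem_univ t)
        have h2 : ∑ t, (mulS (fun s => zeros (c s)) e G (Sum.inl i) t : ℂ) * z t = 0 :=
          Finset.sum_eq_zero fun t _ => by
            change ((mult (fun s => zeros (c s)) (e t) (G i) : ℕ) : ℂ) * z t = 0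
            rw [h1 t, Nat.cast_zero, zero_mul]
        rw [h2, zero_add] at hx
        exact (hν (Sum.inl i)).ne' (Nat.cast_eq_zero.1 hx)
      · exact h0
    have hpos' : 0 < ∑ t, n t * mult (fun s => zeros (c s)) (e t) (G i) := by
      obtain ⟨t, _, ht⟩ := Finset.exists_ne_zero_of_sum_ne_zero hpos.ne'
      exact lt_of_lt_of_le (Nat.mul_pos (hn t) (Nat.pos_of_ne_zero ht))
        (Finset.single_le_sum (f := fun t => n t * mult (fun s => zeros (c s)) (e t) (G i))
          (fun _ _ => Nat.zero_le _) (Finset.mem_univ t))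
    have key := root_of_dvd c e n (nuA G T (Sum.inl i)) _ hpos'
      (dvd_of_T c e _ (hG i hpos ⟨J, hJ, hxJ⟩) n hn hpos') b hd
    have e1 : ((∑ t, n t * mult (fun s => zeros (c s)) (e t) (G i) : ℕ) : ℂ) =
        ∑ t, (n t : ℂ) * (mulS (fun s => zeros (c s)) e G (Sum.inl i) t : ℂ) := by
      push_cast
      rfl
    rw [e1] at key
    exact key
  · have h1 : ∑ t', (n t' : ℂ) * (mulS (fun s => zeros (c s)) e G (Sum.inr t) t' : ℂ) = n t := by
      rw [Finset.sum_eq_single t]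
      · change (n t : ℂ) * ((Pi.single t 1 : T → ℕ) t : ℂ) = n t
        rw [Pi.single_eq_same, Nat.cast_one, mul_one]
      · intro t' _ ht'
        change (n t' : ℂ) * ((Pi.single t 1 : T → ℕ) t' : ℂ) = 0
        rw [Pi.single_eq_of_ne ht', Nat.cast_zero, mul_zero]
      · intro h; exact absurd (Finset.mem_univ _) h
    rw [h1]
    exact strict_zero hd (hn t)

end arr

section tw

variable {σ S T I : Type} [Fintype σ] [DecidableEq σ] [Fintype S] [DecidableEq S] [Fintype T]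
  [DecidableEq T] [Fintype I] {κ : S → Type} [∀ s, Fintype (κ s)] [∀ s, DecidableEq (κ s)]

/-- **Twisted topological zeta functions of forms over subspace arrangements: the divisibility
criterion.** -/
theorem arr_tw (c : (s : S) → κ s → σ → ℂ) (hc : ∀ s, ∃ j, c s j ≠ 0) (e : T → S → ℕ) (a : T → ℕ)
    (G : I → Submodule ℂ (σ → ℂ)) (hG0 : ∀ i, G i ≠ ⊤) (χ : Finset (I ⊕ T) → ℤ) (d : ℕ)
    (hG : ∀ i, 0 < ∑ t, a t * mult (fun s => zeros (c s)) (e t) (G i) →
      d ∣ ∑ t, a t * mult (fun s => zeros (c s)) (e t) (G i) →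
      (∃ J, χ J ≠ 0 ∧ Sum.inl i ∈ J ∧ ∀ x ∈ J, d ∣ mulA (fun s => zeros (c s)) e a G x) →
        DvdMult c e a (∑ t, a t * mult (fun s => zeros (c s)) (e t) (G i)))
    (s₀ : ℂ) (hs : (twZ d (nuA G T) (mulA (fun s => zeros (c s)) e a G) χ).denom.eval s₀ = 0)
    (b : Polynomial ℂ) (hb : IsBFunction (powProd a fun t => arrGen c (e t)) b) :
    RootModZ b s₀ := by
  classical
  have h1 : twZ d (nuA G T) (mulA (fun s => zeros (c s)) e a G) χ =
      topZ (nuA G T) (mulA (fun s => zeros (c s)) e a G)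
      (fun J => if J.Nonempty ∧ ∀ i ∈ J, d ∣ mulA (fun s => zeros (c s)) e a G i
        then χ J else 0) := by
    rw [twZ, topZ, Finset.sum_filter]
    refine Finset.sum_congr rfl fun J _ => ?_
    split_ifs
    · rfl
    · simp
  rw [h1] at hs
  refine arr_top c e a G hG0 _ (fun i hi hJ => ?_) s₀ hs b
    (powData_global a _ (fun t => arrGen_ne c hc (e t)) b hb)
  obtain ⟨J, hJ, hiJ⟩ := hJ
  by_cases hcond : J.Nonempty ∧ ∀ i ∈ J, d ∣ mulA (fun s => zeros (c s)) e a G i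
  · rw [if_pos hcond] at hJ
    exact hG i hi (hcond.2 _ hiJ) ⟨J, hJ, hiJ, hcond.2⟩
  · rw [if_neg hcond] at hJ
    exact absurd rfl hJ

end tw

end Pool.Agent.Q282.DL
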