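import Pool.Agent.Q282.DL.Mem

set_option autoImplicit false
set_option linter.unusedSectionVars false
set_option linter.unusedVariables false

/-! # The formula of Denef and Loeser: weak forms (monodromy eigenvalues) -/

namespace Pool.Agent.Q282.DL

open Pool.Agent.TH192.DT Pool.Agent.TH187.SA Pool.Agent.Y231.RF Pool.Agent.Y228.RR
  Pool.Agent.W574.HS Pool.Agent.H628R4.TP Pool.Agent.W574.LM Pool.Agent.W574.SM

/-- `exp(2 π i q)` is the exponential of a root of `b` -/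
def RootModZ (b : Polynomial ℂ) (q : ℂ) : Prop := ∃ i : ℤ, b.eval (q - i) = 0

section rees

variable {σ T I : Type} [Fintype σ] [DecidableEq σ] [Fintype T] [DecidableEq T] [Fintype I]
  {κ : T → Type} [∀ t, Fintype (κ t)] [∀ t, DecidableEq (κ t)]

/-- The number `-ν / N` is congruent modulo `ℤ` to the number `-ν' / N'` of a Rees divisor of the
product of the ideals `I_t` with `a t ≠ 0` (`FromRees`), or to the number `-(1 + l) / a t` of a strict
transform. -/
def FromReesMod (g : (t : T) → κ t → MvPolynomial σ ℂ) (a : T → ℕ) (H : MvPolynomial σ ℂ)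
    (ν N : ℕ) : Prop :=
  (∃ (ν' N' : ℕ) (j : ℤ), 0 < N' ∧ FromRees g a H ν' N' ∧ (ν : ℤ) * N' = (ν' + j * N') * N) ∨
    ∃ (t : T) (l : ℕ) (j : ℤ), l < a t ∧ (ν : ℤ) * a t = (1 + l + j * a t) * N

theorem modZ_of_eq (b : Polynomial ℂ) {ν N ν' N' : ℕ} (hN : 0 < N) (hN' : 0 < N') (j : ℤ)
    (h : (ν : ℤ) * N' = (ν' + j * N') * N) (hb : b.eval (-(ν' : ℂ) / N') = 0) :
    RootModZ b (-(ν : ℂ) / N) := by
  refine ⟨-j, ?_⟩
  have hN0 : (N : ℂ) ≠ 0 := Nat.cast_ne_zero.2 hN.ne'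
  have hN0' : (N' : ℂ) ≠ 0 := Nat.cast_ne_zero.2 hN'.ne'
  have h' : (ν : ℂ) * N' = (ν' + j * N') * N := by exact_mod_cast h
  have h2 : -(ν : ℂ) / N - ((-j : ℤ) : ℂ) = -(ν' : ℂ) / N' := by
    push_cast
    rw [sub_neg_eq_add]
    field_simp
    linear_combination -h'
  rw [h2]
  exact hb

/-- the integers: `b(-1) = 0` -/
theorem minus_one {g : (t : T) → κ t → MvPolynomial σ ℂ} {a : T → ℕ} {b : Polynomial ℂ}
    (hb : PowData a g b) (ha : ∃ t, 0 < a t) : b.eval (-((1 : ℕ) : ℂ) / (1 : ℕ)) = 0 := by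
  obtain ⟨t, ht⟩ := ha
  have h := hb.strict t (a t - 1) (by omega)
  have h0 : (a t : ℂ) ≠ 0 := Nat.cast_ne_zero.2 ht.ne'
  have h1 : -(1 + ((a t - 1 : ℕ) : ℂ)) / a t = -((1 : ℕ) : ℂ) / (1 : ℕ) := by
    rw [Nat.cast_sub (by omega : 1 ≤ a t)]
    push_cast
    field_simp
    ring
  rw [← h1]
  exact h

theorem rees_glob_weak (g : (t : T) → κ t → MvPolynomial σ ℂ) (hg : ∀ t, ∃ j, g t j ≠ 0)
    (a : T → ℕ) (k : I → ℕ) (m : I → T → ℕ) {R : Type} [CommRing R] (u : Rˣ)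
    (c : Finset {x // 0 < mulR a m x} → R)
    (hE : ∀ (i : I) (hi : 0 < ∑ t, a t * m i t), Occ c ⟨Sum.inl i, hi⟩ →
      FromReesMod g a 1 (k i + 1) (∑ t, a t * m i t)) :
    ∃ P : Finset (ℤ × ℤ), (∀ q ∈ P, q.1 < 0 ∧ 0 < q.2 ∧
      ∀ b : Polynomial ℂ, IsBFunction (powProd a g) b → RootModZ b ((q.1 : ℂ) / q.2)) ∧
      dlZ u (nuR k T) (mulR a m) c ∈ ratU u (P : Set (ℤ × ℤ)) := by
  refine ⟨occPairs (nuR k T) (mulR a m) c, fun q hq => ?_, dlZ_mem_occ _ _ _ _⟩
  obtain ⟨⟨x, hx⟩, hocc, rfl⟩ := mem_occPairs hq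
  refine ⟨?_, Int.natCast_pos.2 hx, fun b hb => ?_⟩
  · have h := nuR_pos (T := T) k x
    show -((nuR k T x : ℕ) : ℤ) < 0
    omega
  · have hd := powData_global a g hg b hb
    rcases x with i | t
    · have hi : 0 < ∑ t, a t * m i t := hx
      have ha : ∃ t, a t ≠ 0 := by
        obtain ⟨t, _, ht⟩ := Finset.exists_ne_zero_of_sum_ne_zero hi.ne'
        exact ⟨t, left_ne_zero_of_mul ht⟩
      have key : RootModZ b (-((k i + 1 : ℕ) : ℂ) / (∑ t, a t * m i t : ℕ)) := by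
        rcases hE i hi hocc with ⟨ν', N', j, hN', hF, he⟩ | ⟨t, l, j, hl, he⟩
        · obtain ⟨H, hH, hHb⟩ := locEq_global a g b hb ha
          exact modZ_of_eq b hi hN' j he (root_of_from a g b H hHb _ _ hN' (hF.congr hH))
        · refine modZ_of_eq b hi (N' := a t) (ν' := 1 + l) (by omega) j
            (by push_cast at he ⊢; exact he) ?_
          have h := hd.strict t l hl
          push_cast
          exact h
      simp only [nuR, mulR, Sum.elim_inl]
      push_cast at key ⊢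
      exact key
    · have ht : 0 < a t := hx
      have h := hd.strict t 0 ht
      rw [Nat.cast_zero, add_zero] at h
      simp only [nuR, mulR, Sum.elim_inr]
      refine ⟨0, ?_⟩
      push_cast
      rw [sub_zero]
      exact h

theorem rees_loc_weak (g : (t : T) → κ t → MvPolynomial σ ℂ) (hg : ∀ t, ∃ j, g t j ≠ 0)
    (a : T → ℕ) (k : I → ℕ) (m : I → T → ℕ) {R : Type} [CommRing R] (u : Rˣ)
    (c : Finset {x // 0 < mulR a m x} → R)
    (hE : ∀ (i : I) (hi : 0 < ∑ t, a t * m i t), Occ c ⟨Sum.inl i, hi⟩ →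
      ∀ H : MvPolynomial σ ℂ, MvPolynomial.constantCoeff H ≠ 0 →
        FromReesMod g a H (k i + 1) (∑ t, a t * m i t)) :
    ∃ P : Finset (ℤ × ℤ), (∀ q ∈ P, q.1 < 0 ∧ 0 < q.2 ∧
      ∀ b : Polynomial ℂ, IsLocalBFunction (powProd a g) b → RootModZ b ((q.1 : ℂ) / q.2)) ∧
      dlZ u (nuR k T) (mulR a m) c ∈ ratU u (P : Set (ℤ × ℤ)) := by
  refine ⟨occPairs (nuR k T) (mulR a m) c, fun q hq => ?_, dlZ_mem_occ _ _ _ _⟩
  obtain ⟨⟨x, hx⟩, hocc, rfl⟩ := mem_occPairs hq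
  refine ⟨?_, Int.natCast_pos.2 hx, fun b hb => ?_⟩
  · have h := nuR_pos (T := T) k x
    show -((nuR k T x : ℕ) : ℤ) < 0
    omega
  · have hd := powData_local a g hg b hb
    rcases x with i | t
    · have hi : 0 < ∑ t, a t * m i t := hx
      have ha : ∃ t, a t ≠ 0 := by
        obtain ⟨t, _, ht⟩ := Finset.exists_ne_zero_of_sum_ne_zero hi.ne'
        exact ⟨t, left_ne_zero_of_mul ht⟩
      obtain ⟨H, hH, hHb⟩ := hd.ideal ha
      have key : RootModZ b (-((k i + 1 : ℕ) : ℂ) / (∑ t, a t * m i t : ℕ)) := by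
        rcases hE i hi hocc H hH with ⟨ν', N', j, hN', hF, he⟩ | ⟨t, l, j, hl, he⟩
        · exact modZ_of_eq b hi hN' j he (root_of_from a g b H hHb _ _ hN' hF)
        · refine modZ_of_eq b hi (N' := a t) (ν' := 1 + l) (by omega) j
            (by push_cast at he ⊢; exact he) ?_
          have h := hd.strict t l hl
          push_cast
          exact h
      simp only [nuR, mulR, Sum.elim_inl]
      push_cast at key ⊢
      exact key
    · have ht : 0 < a t := hx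
      have h := hd.strict t 0 ht
      rw [Nat.cast_zero, add_zero] at h
      simp only [nuR, mulR, Sum.elim_inr]
      refine ⟨0, ?_⟩
      push_cast
      rw [sub_zero]
      exact h

/-- the weak form contains the cases `N ∣ ν` -/
theorem fromReesMod_of_dvd {g : (t : T) → κ t → MvPolynomial σ ℂ} {a : T → ℕ}
    {H : MvPolynomial σ ℂ} {ν N : ℕ} (h : N ∣ ν) (ha : ∃ t, 0 < a t) : FromReesMod g a H ν N := by
  obtain ⟨t, ht⟩ := ha
  obtain ⟨d, rfl⟩ := h
  refine Or.inr ⟨t, a t - 1, (d : ℤ) - 1, by omega, ?_⟩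
  have h1 : ((a t - 1 : ℕ) : ℤ) = (a t : ℤ) - 1 := by omega
  rw [h1]
  push_cast
  ring

/-- the weak form contains the strong form -/
theorem FromReesMod.of_fromRees {g : (t : T) → κ t → MvPolynomial σ ℂ} {a : T → ℕ}
    {H : MvPolynomial σ ℂ} {ν N : ℕ} (hN : 0 < N) (h : FromRees g a H ν N) :
    FromReesMod g a H ν N :=
  Or.inl ⟨ν, N, 0, hN, h, by ring⟩

end rees

section arr

variable {σ S T I : Type} [Fintype σ] [DecidableEq σ] [Fintype S] [DecidableEq S] [Fintype T]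
  [DecidableEq T] [Fintype I] {κ : S → Type} [∀ s, Fintype (κ s)] [∀ s, DecidableEq (κ s)]

/-- `n` divides the multiplicity of the exceptional divisor of a Rees flat, or of a strict
transform. -/
def DvdMult (c : (s : S) → κ s → σ → ℂ) (e : T → S → ℕ) (a : T → ℕ) (n : ℕ) : Prop :=
  (∃ G : Submodule ℂ (σ → ℂ), IsReesFlat (fun s => zeros (c s)) (Occurs e a) G ∧
    0 < ∑ t, a t * mult (fun s => zeros (c s)) (e t) G ∧
    n ∣ ∑ t, a t * mult (fun s => zeros (c s)) (e t) G) ∨ ∃ t, 0 < a t ∧ n ∣ a t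

theorem exists_res {ν n N p : ℕ} (hn : 0 < n) (hN : 0 < N) (h : n ∣ N) :
    ∃ (l : ℕ) (j : ℤ), l < N ∧ (ν : ℤ) * N = ((p + l : ℕ) + j * N) * n := by
  obtain ⟨d, rfl⟩ := h
  have hN0 : (0 : ℤ) < ((n * d : ℕ) : ℤ) := Int.natCast_pos.2 hN
  refine ⟨(((ν : ℤ) * d - p) % ((n * d : ℕ) : ℤ)).toNat, ((ν : ℤ) * d - p) / ((n * d : ℕ) : ℤ),
    ?_, ?_⟩
  · have h1 := Int.emod_lt_of_pos ((ν : ℤ) * d - p) hN0
    have h2 := Int.emod_nonneg ((ν : ℤ) * d - p) hN0.ne'
    omega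
  · have h2 := Int.emod_nonneg ((ν : ℤ) * d - p) hN0.ne'
    have h3 := Int.emod_add_mul_ediv ((ν : ℤ) * d - p) ((n * d : ℕ) : ℤ)
    rw [Nat.cast_add, Int.toNat_of_nonneg h2]
    have h4 : ((p : ℤ) + ((ν : ℤ) * d - p) % ((n * d : ℕ) : ℤ) +
        ((ν : ℤ) * d - p) / ((n * d : ℕ) : ℤ) * ((n * d : ℕ) : ℤ)) = (ν : ℤ) * d := by
      linear_combination h3
    rw [h4]
    push_cast
    ring

theorem arr_weak (c : (s : S) → κ s → σ → ℂ) (hc : ∀ s, ∃ j, c s j ≠ 0) (e : T → S → ℕ)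
    (a : T → ℕ) (G : I → Submodule ℂ (σ → ℂ)) {R : Type} [CommRing R] (u : Rˣ)
    (χ : Finset {x // 0 < mulA (fun s => zeros (c s)) e a G x} → R)
    (hG : ∀ (i : I) (hi : 0 < mulA (fun s => zeros (c s)) e a G (Sum.inl i)),
      Occ χ ⟨Sum.inl i, hi⟩ → G i ≠ ⊤ ∧
        DvdMult c e a (∑ t, a t * mult (fun s => zeros (c s)) (e t) (G i))) :
    ∃ P : Finset (ℤ × ℤ), (∀ q ∈ P, q.1 < 0 ∧ 0 < q.2 ∧
      (∀ b : Polynomial ℂ, IsBFunction (powProd a fun t => arrGen c (e t)) b →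
        RootModZ b ((q.1 : ℂ) / q.2)) ∧
      ∀ b : Polynomial ℂ, IsLocalBFunction (powProd a fun t => arrGen c (e t)) b →
        RootModZ b ((q.1 : ℂ) / q.2)) ∧
      dlZ u (nuA G T) (mulA (fun s => zeros (c s)) e a G) χ ∈ ratU u (P : Set (ℤ × ℤ)) := by
  refine ⟨occPairs _ _ χ, fun q hq => ?_, dlZ_mem_occ _ _ _ _⟩
  obtain ⟨⟨x, hx⟩, hocc, rfl⟩ := mem_occPairs hq
  have key : 0 < nuA G T x ∧ ∀ b : Polynomial ℂ, PowData a (fun t => arrGen c (e t)) b →
      RootModZ b (-((nuA G T x : ℂ)) / mulA (fun s => zeros (c s)) e a G x) := by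
    rcases x with i | t
    · obtain ⟨hne, hd⟩ := hG i hx hocc
      have hx' : 0 < ∑ t, a t * mult (fun s => zeros (c s)) (e t) (G i) := hx
      refine ⟨?_, fun b hb => ?_⟩
      · have h2 := Submodule.finrank_lt hne
        rw [Module.finrank_fintype_fun_eq_card] at h2
        show 0 < Fintype.card σ - Module.finrank ℂ (G i)
        omega
      · show RootModZ b (-((Fintype.card σ - Module.finrank ℂ (G i) : ℕ) : ℂ) /
          ((∑ t, a t * mult (fun s => zeros (c s)) (e t) (G i) : ℕ) : ℂ))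
        rcases hd with ⟨G', hR, hpos, hdvd⟩ | ⟨t, ht, hdvd⟩
        · obtain ⟨l, j, hl, he⟩ := exists_res (ν := Fintype.card σ - Module.finrank ℂ (G i))
            (p := Fintype.card σ - Module.finrank ℂ G') hx' hpos hdvd
          refine modZ_of_eq b hx' hpos j he ?_
          have h := pow_arr (I := Unit) c e a (fun _ => G') (fun _ => hR) b hb (Sum.inl ()) l hl
          rw [Nat.cast_add]
          exact h
        · obtain ⟨l, j, hl, he⟩ := exists_res (ν := Fintype.card σ - Module.finrank ℂ (G i))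
            (p := 1) hx' ht hdvd
          refine modZ_of_eq b hx' ht j he ?_
          have h := hb.strict t l hl
          rw [Nat.cast_add, Nat.cast_one]
          exact h
    · refine ⟨one_pos, fun b hb => ⟨0, ?_⟩⟩
      have ht : 0 < a t := hx
      have h := hb.strict t 0 ht
      rw [Nat.cast_zero, add_zero] at h
      simp only [nuA, mulA, Sum.elim_inr]
      push_cast
      rw [sub_zero]
      exact h
  refine ⟨?_, Int.natCast_pos.2 hx, fun b hb => ?_, fun b hb => ?_⟩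
  · have h := key.1
    show -((nuA G T x : ℕ) : ℤ) < 0
    omega
  · have h := key.2 b (powData_global a _ (fun t => arrGen_ne c hc (e t)) b hb)
    push_cast at h ⊢
    exact h
  · have h := key.2 b (powData_local a _ (fun t => arrGen_ne c hc (e t)) b hb)
    push_cast at h ⊢
    exact h

end arr

section ideals

variable {σ T I : Type} [Fintype σ] [DecidableEq σ] [Fintype T] [DecidableEq T] [Fintype I]
  {κ : T → Type} [∀ t, Fintype (κ t)] [∀ t, DecidableEq (κ t)]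

/-- The number `-ν / N` is congruent modulo `ℤ` to the number `-ν' / N'` of a Rees divisor of the
product of the ideals `I_t` with `a t ≠ 0` (`FromRees`). -/
def FromReesModI (g : (t : T) → κ t → MvPolynomial σ ℂ) (a : T → ℕ) (H : MvPolynomial σ ℂ)
    (ν N : ℕ) : Prop :=
  ∃ (ν' N' : ℕ) (j : ℤ), 0 < N' ∧ FromRees g a H ν' N' ∧ (ν : ℤ) * N' = (ν' + j * N') * N

/-- **Products of powers of ideals, local at the origin, weak form.** -/
theorem ideal_weak (g : (t : T) → κ t → MvPolynomial σ ℂ) (a : T → ℕ)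
    (k : I → ℕ) (m : I → T → ℕ) {R : Type} [CommRing R] (u : Rˣ)
    (c : Finset {i // 0 < ∑ t, a t * m i t} → R)
    (hE : ∀ (i : I) (hi : 0 < ∑ t, a t * m i t), Occ (N := fun i => ∑ t, a t * m i t) c ⟨i, hi⟩ →
      ∀ H : MvPolynomial σ ℂ, MvPolynomial.constantCoeff H ≠ 0 →
        FromReesModI g a H (k i + 1) (∑ t, a t * m i t)) :
    ∃ P : Finset (ℤ × ℤ), (∀ q ∈ P, q.1 < 0 ∧ 0 < q.2 ∧
      ∀ (b : Polynomial ℂ) (H : MvPolynomial σ ℂ), MvPolynomial.constantCoeff H ≠ 0 →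
        IsLocEq H (prodFam fun q : Σ t, Fin (a t) => g q.1) b →
          RootModZ b ((q.1 : ℂ) / q.2)) ∧
      dlZ u (fun i => k i + 1) (fun i => ∑ t, a t * m i t) c ∈ ratU u (P : Set (ℤ × ℤ)) := by
  refine ⟨occPairs _ _ c, fun q hq => ?_, dlZ_mem_occ _ _ _ _⟩
  obtain ⟨⟨i, hi⟩, hocc, rfl⟩ := mem_occPairs hq
  refine ⟨?_, Int.natCast_pos.2 hi, fun b H hH hb => ?_⟩
  · show -((k i + 1 : ℕ) : ℤ) < 0
    omega
  · obtain ⟨ν', N', j, hN', hF, he⟩ := hE i hi hocc H hH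
    have h := modZ_of_eq b hi hN' j he (root_of_from a g b H hb _ _ hN' hF)
    push_cast at h ⊢
    exact h

end ideals

end Pool.Agent.Q282.DL
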